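import Mathlib
import Pool.Agent.Helper17.CR.Stmts

/-!
MP_c38931_co, module CYC: a finite `l`-group (`l` odd) with only one subgroup of order `l` is
cyclic.
-/

set_option autoImplicit false

namespace Pool.Agent.Helper28.CR

open Pool.Agent.Helper17.CR

universe u

/-- the numbers: `t ^ l = 1` modulo `l ^ n` -/
theorem cyc_num (l : ℕ) (hl : l.Prime) (hl2 : l ≠ 2) (n : ℕ) (hn : 1 ≤ n) (t : ℤ)
    (ht : ((l : ℤ) ^ n) ∣ t ^ l - 1) :
    (l : ℤ) ∣ t - 1 ∧ ((l : ℤ) ^ n) ∣ (∑ i ∈ Finset.range l, t ^ i) - l := by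
  haveI : Fact l.Prime := ⟨hl⟩
  have hodd : Odd l := hl.odd_of_ne_two hl2
  have hlt : (l : ℤ) ∣ t ^ l - 1 := (dvd_pow_self _ (by omega)).trans ht
  have h1 : (l : ℤ) ∣ t - 1 := by
    have h2 : ((t : ZMod l)) ^ l = t := ZMod.pow_card _
    have h3 : (((t ^ l - 1 : ℤ)) : ZMod l) = 0 := (ZMod.intCast_zmod_eq_zero_iff_dvd _ l).2 hlt
    rw [← ZMod.intCast_zmod_eq_zero_iff_dvd]
    push_cast at h3 ⊢
    rw [h2] at h3
    exact h3
  refine ⟨h1, ?_⟩
  have hnt : ¬ (l : ℤ) ∣ t := by
    intro h
    have h2 : (l : ℤ) ∣ 1 := by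
      have := dvd_sub h h1
      simpa using this
    have h3 : (l : ℤ) ≤ 1 := Int.le_of_dvd one_pos h2
    have := hl.two_le
    omega
  have h4 := Int.emultiplicity_pow_sub_pow hl hodd (x := t) (y := 1) h1 hnt l
  rw [one_pow] at h4
  have h5 : ((l : ℤ) ^ n) ∣ l * (t - 1) := by
    apply pow_dvd_of_le_emultiplicity
    rw [emultiplicity_mul (Nat.prime_iff_prime_int.1 hl)]
    have h6 : (n : ℕ∞) ≤ emultiplicity (l : ℤ) (t ^ l - 1) := le_emultiplicity_of_pow_dvd ht
    rw [h4] at h6
    rw [add_comm]
    rw [← Int.natCast_emultiplicity l l] at h6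
    exact h6
  set s := t - 1 with hs
  have hts : t = 1 + s := by rw [hs]; ring
  have h6 : ∀ i : ℕ, s ^ 2 ∣ t ^ i - (1 + i * s) := by
    intro i
    induction i with
    | zero => simp
    | succ i ih =>
      obtain ⟨c, hc⟩ := ih
      refine ⟨t * c + i, ?_⟩
      have h7 : t ^ i = s ^ 2 * c + (1 + i * s) := by rw [← hc]; ring
      rw [pow_succ, h7, hts]
      push_cast
      ring
  have h7 : (l : ℤ) ^ n ∣ s ^ 2 := by
    refine h5.trans ?_
    rw [pow_two]
    exact mul_dvd_mul_right h1 s
  have h8 : (l : ℤ) ^ n ∣ ∑ i ∈ Finset.range l, (t ^ i - (1 + i * s)) :=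
    Finset.dvd_sum fun i _ => h7.trans (h6 i)
  have h9 : (l : ℤ) ^ n ∣ ∑ i ∈ Finset.range l, ((i : ℤ) * s) := by
    rw [← Finset.sum_mul]
    obtain ⟨k, hk⟩ := hodd
    have h10 : ∑ i ∈ Finset.range l, (i : ℤ) = l * k := by
      have h11 := Finset.sum_range_id_mul_two l
      have h12 : (∑ i ∈ Finset.range l, i) * 2 = (l * k) * 2 := by
        rw [h11, hk]
        have : 2 * k + 1 - 1 = 2 * k := by omega
        rw [this]
        ring
      have h13 : ∑ i ∈ Finset.range l, i = l * k := by omega
      rw [← Nat.cast_sum, h13, Nat.cast_mul]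
    rw [h10]
    have h11 : (l : ℤ) * k * s = (l * s) * k := by ring
    rw [h11]
    exact h5.mul_right _
  have h10 : (∑ i ∈ Finset.range l, t ^ i) - l =
      ∑ i ∈ Finset.range l, (t ^ i - (1 + i * s)) + ∑ i ∈ Finset.range l, ((i : ℤ) * s) := by
    rw [← Finset.sum_add_distrib]
    have h11 : ∀ i ∈ Finset.range l, (t ^ i - (1 + i * s)) + (i : ℤ) * s = t ^ i - 1 := by
      intro i _
      ring
    rw [Finset.sum_congr rfl h11, Finset.sum_sub_distrib]
    simp
  rw [h10]
  exact dvd_add h8 h9

theorem cyc_main (l : ℕ) (hl : l.Prime) (hl2 : l ≠ 2) : ∀ (N : ℕ) (P : Type u) [Group P] [Finite P],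
    Nat.card P = l ^ N →
    (∀ x y : P, orderOf x = l → orderOf y = l → x * y = y * x → y ∈ Subgroup.zpowers x) →
    IsCyclic P := by
  intro N
  haveI : Fact l.Prime := ⟨hl⟩
  induction N with
  | zero =>
    intro P _ _ hc _
    rw [pow_zero] at hc
    haveI : Subsingleton P := (Nat.card_eq_one_iff_unique.1 hc).1
    infer_instance
  | succ n ih =>
    intro P _ _ hc hP
    obtain ⟨M, hM⟩ := Sylow.exists_subgroup_card_pow_prime (G := P) l (n := n)
      (by rw [hc]; exact pow_dvd_pow l (Nat.le_succ n))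
    have hMi : M.index = l := by
      have h1 := M.card_mul_index
      rw [hM, hc, pow_succ] at h1
      exact Nat.eq_of_mul_eq_mul_left (pow_pos hl.pos n) h1
    haveI hMn : M.Normal := by
      apply Subgroup.normal_of_index_eq_minFac_card
      rw [hMi, hc, hl.pow_minFac (Nat.succ_ne_zero n)]
    have hMc : IsCyclic M := by
      apply ih M hM
      intro x y hx hy hxy
      have h1 := hP x y (by rw [Subgroup.orderOf_coe]; exact hx)
        (by rw [Subgroup.orderOf_coe]; exact hy)
        (by rw [← Subgroup.coe_mul, hxy, Subgroup.coe_mul])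
      obtain ⟨k, hk⟩ := Subgroup.mem_zpowers_iff.1 h1
      refine Subgroup.mem_zpowers_iff.2 ⟨k, ?_⟩
      apply Subtype.ext
      rw [Subgroup.coe_zpow]
      exact hk
    rcases Nat.eq_zero_or_pos n with hn0 | hn0
    · subst hn0
      exact isCyclic_of_prime_card (p := l) (by rw [hc]; simp)
    obtain ⟨⟨x, hxM⟩, hx⟩ := IsCyclic.exists_generator (α := M)
    have hgen : ∀ z ∈ M, ∃ k : ℕ, x ^ k = z := by
      intro z hz
      have h1 := hx ⟨z, hz⟩
      rw [← mem_powers_iff_mem_zpowers] at h1
      obtain ⟨k, hk⟩ := h1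
      refine ⟨k, ?_⟩
      have h2 := congrArg Subtype.val hk
      simpa using h2
    have hox : orderOf x = l ^ n := by
      have h1 : orderOf (⟨x, hxM⟩ : M) = Nat.card M := orderOf_eq_card_of_forall_mem_zpowers hx
      rw [Subgroup.orderOf_mk] at h1
      rw [h1, hM]
    -- an element outside `M`
    have hne : ∃ y : P, y ∉ M := by
      by_contra hcon
      push Not at hcon
      have h1 : M = ⊤ := by
        rw [Subgroup.eq_top_iff']
        exact hcon
      rw [h1, Subgroup.index_top] at hMi
      exact hl.one_lt.ne hMi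
    obtain ⟨y, hy⟩ := hne
    -- powers of elements
    have hpM : ∀ z : P, z ^ l ∈ M := by
      intro z
      have h1 : (QuotientGroup.mk z : P ⧸ M) ^ l = 1 := by
        have h2 : Nat.card (P ⧸ M) = l := hMi
        rw [← h2]
        exact pow_card_eq_one'
      rw [← QuotientGroup.mk_pow] at h1
      exact (QuotientGroup.eq_one_iff _).1 h1
    have hmax : ∀ H : Subgroup P, M ≤ H → y ∈ H → H = ⊤ := by
      intro H hMH hyH
      have h1 : H.index ∣ l := by
        rw [← hMi]
        exact Subgroup.index_dvd_of_le hMH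
      rcases (Nat.dvd_prime hl).1 h1 with h2 | h2
      · exact Subgroup.index_eq_one.1 h2
      · exfalso
        have h3 : Nat.card H = Nat.card M := by
          have h4 := H.card_mul_index
          have h5 := M.card_mul_index
          rw [h2] at h4
          rw [hMi] at h5
          exact Nat.eq_of_mul_eq_mul_right hl.pos (h4.trans h5.symm)
        have h4 : M = H := Subgroup.eq_of_le_of_card_ge hMH h3.le
        exact hy (h4 ▸ hyH)
    obtain ⟨t, ht⟩ := hgen (y * x * y⁻¹) (hMn.conj_mem x hxM y)
    obtain ⟨k, hk⟩ := hgen (y ^ l) (hpM y)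
    have hyx : ∀ b : ℤ, y * x ^ b = x ^ (b * t) * y := by
      intro b
      have h1 : y * x ^ b * y⁻¹ = (y * x * y⁻¹) ^ b := by
        rw [conj_zpow]
      rw [← ht] at h1
      have h2 : (x ^ t) ^ b = x ^ (b * t) := by
        rw [← zpow_natCast, ← zpow_mul, mul_comm]
      rw [h2] at h1
      rw [← h1]
      group
    have hyix : ∀ (i : ℕ) (b : ℤ), y ^ i * x ^ b = x ^ (b * t ^ i) * y ^ i := by
      intro i
      induction i with
      | zero => intro b; simp
      | succ i ih =>
        intro b
        rw [pow_succ, mul_assoc, hyx, ← mul_assoc, ih, mul_assoc]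
        congr 2
        ring
    have htl : ((l : ℤ) ^ n) ∣ (t : ℤ) ^ l - 1 := by
      have h1 := hyix l 1
      rw [one_mul, ← hk, zpow_one] at h1
      have h2 : x ^ k * x = x * x ^ k := (Commute.refl x).pow_left k
      rw [h2] at h1
      have h3 : x ^ ((t : ℤ) ^ l) = x := (mul_right_cancel h1).symm
      have h4 : x ^ ((t : ℤ) ^ l - 1) = 1 := by
        rw [zpow_sub, h3]
        simp
      have h5 := orderOf_dvd_iff_zpow_eq_one.2 h4
      rw [hox] at h5
      exact_mod_cast h5
    obtain ⟨ht1, hSl⟩ := cyc_num l hl hl2 n hn0 t htl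
    by_cases hlk : l ∣ k
    · exfalso
      obtain ⟨j, hj⟩ := hlk
      set z : P := x ^ (-(j : ℤ)) * y with hz
      have hzi : ∀ i : ℕ, z ^ i = x ^ (-(j : ℤ) * ∑ r ∈ Finset.range i, (t : ℤ) ^ r) * y ^ i := by
        intro i
        induction i with
        | zero => simp
        | succ i ih =>
          rw [pow_succ, ih, hz, mul_assoc, ← mul_assoc (y ^ i), hyix, Finset.sum_range_succ,
            mul_add, zpow_add, pow_succ]
          simp only [mul_assoc]
      have hzl : z ^ l = 1 := by
        rw [hzi, ← hk, hj]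
        obtain ⟨c, hc'⟩ := hSl
        have h1 : (∑ i ∈ Finset.range l, (t : ℤ) ^ i) = l ^ n * c + l := by
          rw [← hc']; ring
        rw [h1, ← zpow_natCast, ← zpow_add]
        apply orderOf_dvd_iff_zpow_eq_one.1
        rw [hox]
        refine ⟨-(j * c), ?_⟩
        push_cast
        ring
      have hzM : z ∉ M := by
        intro h
        apply hy
        have h1 : x ^ ((j : ℤ)) * z ∈ M := M.mul_mem (M.zpow_mem hxM _) h
        rw [hz, ← mul_assoc, ← zpow_add] at h1
        simpa using h1
      have hoz : orderOf z = l := by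
        apply orderOf_eq_prime hzl
        intro h
        exact hzM (h ▸ M.one_mem)
      set w : P := x ^ ((l : ℤ) ^ (n - 1)) with hw
      have hln : (l : ℤ) ^ n = l ^ (n - 1) * l := by
        rw [← pow_succ, Nat.sub_add_cancel hn0]
      have how : orderOf w = l := by
        apply orderOf_eq_prime
        · rw [hw, ← zpow_natCast, ← zpow_mul, ← hln]
          apply orderOf_dvd_iff_zpow_eq_one.1
          rw [hox]
          push_cast
          exact dvd_refl _
        · intro h
          rw [hw] at h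
          have h1 := orderOf_dvd_iff_zpow_eq_one.2 h
          rw [hox] at h1
          have h2 : l ^ n ∣ l ^ (n - 1) := by exact_mod_cast h1
          have h3 := (Nat.pow_dvd_pow_iff_le_right hl.one_lt).1 h2
          omega
      have hzw : w * z = z * w := by
        rw [hz, mul_assoc, hw, hyx, ← mul_assoc, ← mul_assoc, ← zpow_add, ← zpow_add]
        congr 1
        obtain ⟨c, hc'⟩ := ht1
        have h1 : (t : ℤ) = l * c + 1 := by rw [← hc']; ring
        rw [h1]
        have h2 : -(j : ℤ) + (l : ℤ) ^ (n - 1) * (l * c + 1) =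
          ((l : ℤ) ^ (n - 1) + -(j : ℤ)) + l ^ n * c := by
          rw [hln]; ring
        rw [h2, zpow_add _ ((l : ℤ) ^ (n - 1) + -(j : ℤ))]
        have h3 : x ^ ((l : ℤ) ^ n * c) = 1 := by
          apply orderOf_dvd_iff_zpow_eq_one.1
          rw [hox]
          push_cast
          exact Dvd.intro _ rfl
        rw [h3, mul_one]
      have h1 := hP w z how hoz hzw
      apply hzM
      have h2 : Subgroup.zpowers w ≤ M := by
        rw [Subgroup.zpowers_le]
        exact M.zpow_mem hxM _
      exact h2 h1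
    · -- `y` generates
      have hxy : x ∈ Subgroup.zpowers y := by
        have hco : Nat.Coprime k (l ^ n) :=
          Nat.Coprime.pow_right n ((Nat.Prime.coprime_iff_not_dvd hl).2 hlk).symm
        have h1 : x ∈ Subgroup.zpowers (x ^ k) := by
          have h2 := Nat.gcd_eq_gcd_ab k (l ^ n)
          rw [hco.gcd_eq_one] at h2
          refine Subgroup.mem_zpowers_iff.2 ⟨Nat.gcdA k (l ^ n), ?_⟩
          rw [← zpow_natCast, ← zpow_mul]
          have h3 : (k : ℤ) * Nat.gcdA k (l ^ n) = 1 - (l ^ n : ℕ) * Nat.gcdB k (l ^ n) := by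
            have h4 : ((1 : ℕ) : ℤ) = 1 := rfl
            rw [h4] at h2
            linarith
          rw [h3, zpow_sub, zpow_one, zpow_mul, zpow_natCast, ← hox, pow_orderOf_eq_one]
          simp
        rw [hk] at h1
        have h2 : Subgroup.zpowers (y ^ l) ≤ Subgroup.zpowers y := by
          rw [Subgroup.zpowers_le]
          exact Subgroup.npow_mem_zpowers y l
        exact h2 h1
      have h1 : Subgroup.zpowers y = ⊤ := by
        apply hmax
        · intro z hz
          obtain ⟨i, hi⟩ := hgen z hz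
          rw [← hi]
          exact Subgroup.pow_mem _ hxy i
        · exact Subgroup.mem_zpowers y
      refine ⟨y, fun z => ?_⟩
      have h2 : z ∈ Subgroup.zpowers y := by rw [h1]; exact Subgroup.mem_top z
      exact h2

theorem st_CYC : ST_CYC.{u} := by
  intro P _ _ l hl hl2 hP h
  haveI : Fact l.Prime := ⟨hl⟩
  obtain ⟨N, hN⟩ := IsPGroup.iff_card.1 hP
  exact cyc_main l hl hl2 N P hN h

end Pool.Agent.Helper28.CR
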